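import Pool.Agent.Y50.RD.Stm2

/-! Diagram groups of every finite rank (job RD-RK). -/

set_option autoImplicit false

namespace Pool.Agent.Y10.RD

open CategoryTheory TensorProduct
open Pool.Agent.H333R3.DG

section Abstract

variable {D : Type} [Group D]

theorem tt_one : tt (1 : D) = 0 := by
  have h := tt_zpow (1 : D) 0
  rw [zpow_zero, Int.cast_zero, zero_smul] at h
  exact h

theorem tt_mul (g h : D) : tt (g * h) = tt g + tt h := by
  unfold tt
  rw [map_mul, ofMul_mul, TensorProduct.tmul_add]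

theorem tt_inv (g : D) : tt g⁻¹ = - tt g := by
  have h := tt_zpow g (-1)
  rw [zpow_neg, zpow_one] at h
  rw [h]
  simp

theorem span_tt (W : Submodule ℚ (ℚ ⊗[ℤ] Additive (Abelianization D)))
    (h : ∀ g : D, tt g ∈ W) : W = ⊤ := by
  rw [eq_top_iff]
  rintro v -
  induction v using TensorProduct.induction_on with
  | zero => exact W.zero_mem
  | tmul q a =>
    obtain ⟨g, hg⟩ := QuotientGroup.mk_surjective (Additive.toMul a)
    have h1 : q ⊗ₜ[ℤ] a = q • tt g := by
      unfold tt
      have h2 : Additive.ofMul (Abelianization.of g) = a := congrArg Additive.ofMul hg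
      rw [TensorProduct.smul_tmul', smul_eq_mul, mul_one, h2]
    rw [h1]
    exact W.smul_mem _ (h g)
  | add x y hx hy => exact W.add_mem hx hy

theorem rank_eq (r : ℕ) (S : Fin r → D) (hgen : Subgroup.closure (Set.range S) = ⊤)
    (φ : Fin r → D →* Multiplicative ℤ)
    (hφ : ∀ i j, φ i (S j) = if i = j then Multiplicative.ofAdd 1 else 1) :
    Module.rank ℚ (ℚ ⊗[ℤ] Additive (Abelianization D)) = r := by
  apply le_antisymm
  · have h1 : Submodule.span ℚ (Set.range fun j => tt (S j)) = ⊤ := by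
      apply span_tt
      intro g
      have hg : g ∈ Subgroup.closure (Set.range S) := by rw [hgen]; trivial
      induction hg using Subgroup.closure_induction with
      | mem x hx =>
        obtain ⟨j, rfl⟩ := hx
        exact Submodule.subset_span ⟨j, rfl⟩
      | one => rw [tt_one]; exact Submodule.zero_mem _
      | mul x y _ _ hx hy => rw [tt_mul]; exact Submodule.add_mem _ hx hy
      | inv x _ hx => rw [tt_inv]; exact Submodule.neg_mem _ hx
    have h2 := rank_span_le (R := ℚ) (Set.range fun j => tt (S j))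
    rw [h1, rank_top] at h2
    refine h2.trans (Cardinal.mk_range_le.trans ?_)
    rw [Cardinal.mk_fin]
  · have h1 : LinearIndependent ℚ (fun j => tt (S j)) := by
      rw [Fintype.linearIndependent_iff]
      intro c hc i
      have h2 := congrArg (func (φ i)) hc
      rw [map_sum, map_zero] at h2
      have h3 : ∀ j, func (φ i) (c j • tt (S j)) = if i = j then c j else 0 := by
        intro j
        rw [map_smul, func_tt, hφ]
        by_cases h : i = j
        · rw [if_pos h, if_pos h]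
          simp
        · rw [if_neg h, if_neg h]
          simp
      rw [Finset.sum_congr rfl fun j _ => h3 j] at h2
      simpa using h2
    have h2 := h1.cardinal_le_rank
    rwa [Cardinal.mk_fin] at h2

end Abstract

/-- the fan presentation -/
def fan (r : ℕ) : Pres :=
  (r + 2, (List.range (r + 1)).map (fun j => ([0], [j + 1])) ++
    (List.range r).map (fun j => ([j + 1], [j + 2])))

theorem mem_fan {r : ℕ} {x : List ℕ × List ℕ} : x ∈ (fan r).2 ↔
    (∃ j, j + 1 < r + 2 ∧ x = ([0], [j + 1])) ∨ (∃ j, j + 2 < r + 2 ∧ x = ([j + 1], [j + 2])) := by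
  unfold fan
  simp only [List.mem_append, List.mem_map, List.mem_range]
  constructor
  · rintro (⟨j, hj, rfl⟩ | ⟨j, hj, rfl⟩)
    · exact Or.inl ⟨j, by omega, rfl⟩
    · exact Or.inr ⟨j, by omega, rfl⟩
  · rintro (⟨j, hj, rfl⟩ | ⟨j, hj, rfl⟩)
    · exact Or.inl ⟨j, by omega, rfl⟩
    · exact Or.inr ⟨j, by omega, rfl⟩

theorem isWord_one {n c : ℕ} (h : c < n) : IsWord n [c] := by
  refine ⟨by simp, fun a ha => ?_⟩
  rw [List.mem_singleton] at ha
  omega

theorem proper_fan (r : ℕ) : Proper (fan r) := by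
  intro x hx
  rcases mem_fan.1 hx with ⟨j, hj, rfl⟩ | ⟨j, hj, rfl⟩
  · refine ⟨isWord_one (by change 0 < r + 2; omega), isWord_one hj, by simp, ?_⟩
    intro h
    rcases mem_fan.1 h with ⟨k, hk, h⟩ | ⟨k, hk, h⟩
    · simp at h
    · simp at h
  · refine ⟨isWord_one (by change j + 1 < r + 2; omega), isWord_one hj, by simp, ?_⟩
    intro h
    rcases mem_fan.1 h with ⟨k, hk, h⟩ | ⟨k, hk, h⟩
    · simp at h
    · simp at h
      omega

/-- the one letter words -/
def V (r c : ℕ) (hc : c < r + 2) : Vertex (fan r) := ⟨[c], isWord_one hc⟩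

/-- the base point -/
abbrev V0 (r : ℕ) : Vertex (fan r) := V r 0 (Nat.succ_pos (r + 1))

/-- the edges of the star -/
def e0 (r j : ℕ) (hj : j + 1 < r + 2) : (V0 r ⟶ V r (j + 1) hj) :=
  (Edge.mk [] [] ([0], [j + 1]) (mem_fan.2 (Or.inl ⟨j, hj, rfl⟩)) rfl rfl :
    Edge (fan r) (V0 r) (V r (j + 1) hj))

/-- the edges of the path -/
def e1 (r j : ℕ) (hj : j + 2 < r + 2) : (V r (j + 1) (by omega) ⟶ V r (j + 2) hj) :=
  (Edge.mk [] [] ([j + 1], [j + 2]) (mem_fan.2 (Or.inr ⟨j, hj, rfl⟩)) rfl rfl :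
    Edge (fan r) (V r (j + 1) (by omega)) (V r (j + 2) hj))

/-- the two kinds of edges -/
inductive Kind (r : ℕ) : {y z : Vertex (fan r)} → (y ⟶ z) → Prop
  | k0 (j : ℕ) (hj : j + 1 < r + 2) : Kind r (e0 r j hj)
  | k1 (j : ℕ) (hj : j + 2 < r + 2) : Kind r (e1 r j hj)

theorem kind_of {r : ℕ} {y z : Vertex (fan r)} (e : y ⟶ z)
    (h : y.word.length = 1 ∨ z.word.length = 1) : Kind r e := by
  obtain ⟨wy, hy⟩ := y
  obtain ⟨wz, hz⟩ := z
  obtain ⟨a, b, R, mem, src, tgt⟩ := e
  simp only at src tgt h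
  rcases mem_fan.1 mem with ⟨j, hj, rfl⟩ | ⟨j, hj, rfl⟩
  · have h1 : a = [] ∧ b = [] := by
      subst src
      subst tgt
      simp only [List.length_append, List.length_singleton] at h
      rw [← List.length_eq_zero_iff, ← List.length_eq_zero_iff]
      omega
    obtain ⟨rfl, rfl⟩ := h1
    have h2 : wy = [0] := by simpa using src
    have h3 : wz = [j + 1] := by simpa using tgt
    subst h2
    subst h3
    exact Kind.k0 j hj
  · have h1 : a = [] ∧ b = [] := by
      subst src
      subst tgt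
      simp only [List.length_append, List.length_singleton] at h
      rw [← List.length_eq_zero_iff, ← List.length_eq_zero_iff]
      omega
    obtain ⟨rfl, rfl⟩ := h1
    have h2 : wy = [j + 1] := by simpa using src
    have h3 : wz = [j + 2] := by simpa using tgt
    subst h2
    subst h3
    exact Kind.k1 j hj

/-- the paths of the star -/
def pth (r : ℕ) : ∀ (c : ℕ) (hc : c < r + 2), pt (V0 r) ⟶ pt (V r c hc)
  | 0, _ => 𝟙 _
  | j + 1, hj => ed (e0 r j hj)

/-- the path from the base point in the star -/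
def Tree (r : ℕ) (y : Vertex (fan r)) (p : pt (V0 r) ⟶ pt y) : Prop :=
  ∃ (c : ℕ) (hc : c < r + 2) (h : V r c hc = y), p = pth r c hc ≫ eqToHom (by rw [h])

theorem tree_mk (r c : ℕ) (hc : c < r + 2) : Tree r (V r c hc) (pth r c hc) :=
  ⟨c, hc, rfl, by simp⟩

theorem tree_V {r c : ℕ} {hc : c < r + 2} {p : pt (V0 r) ⟶ pt (V r c hc)}
    (h : Tree r (V r c hc) p) : p = pth r c hc := by
  obtain ⟨c', hc', h, rfl⟩ := h
  have h1 : c' = c := by
    have := congrArg Vertex.word h
    simpa [V] using this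
  subst h1
  simp

theorem tree_len {r : ℕ} {y : Vertex (fan r)} {p : pt (V0 r) ⟶ pt y}
    (h : Tree r y p) : y.word.length = 1 := by
  obtain ⟨c', hc', rfl, -⟩ := h
  rfl

/-- the loops -/
def tj (r j : ℕ) (hj : j + 2 < r + 2) : DiagramGroup (fan r) (V0 r) :=
  pth r (j + 1) (by omega) ≫ ed (e1 r j hj) ≫ Groupoid.inv (pth r (j + 2) hj)

/-- the generators -/
def gens (r : ℕ) : Fin r → DiagramGroup (fan r) (V0 r) :=
  fun j => tj r j.1 (by omega)

theorem elem_mem (r : ℕ) {y z : Vertex (fan r)} (e : y ⟶ z)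
    {p : pt (V0 r) ⟶ pt y} {p' : pt (V0 r) ⟶ pt z}
    (hp : Tree r y p) (hp' : Tree r z p') :
    (p ≫ ed e ≫ Groupoid.inv p' : DiagramGroup (fan r) (V0 r)) ∈
      Subgroup.closure (Set.range (gens r)) := by
  have hk := kind_of e (Or.inl (tree_len hp))
  cases hk with
  | k0 j hj =>
    rw [tree_V hp, tree_V hp']
    have h1 : (pth r 0 (by omega) ≫ ed (e0 r j hj) ≫ Groupoid.inv (pth r (j + 1) hj) :
        DiagramGroup (fan r) (V0 r)) = 1 := by
      change 𝟙 _ ≫ ed (e0 r j hj) ≫ Groupoid.inv (ed (e0 r j hj)) = 𝟙 _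
      simp
    rw [h1]
    exact Subgroup.one_mem _
  | k1 j hj =>
    rw [tree_V hp, tree_V hp']
    exact Subgroup.subset_closure ⟨⟨j, by omega⟩, rfl⟩

theorem gens_gen (r : ℕ) : Subgroup.closure (Set.range (gens r)) = ⊤ := by
  have key : ∀ (y : Vertex (fan r)) (g : pt (V0 r) ⟶ pt y),
      ∃ p : pt (V0 r) ⟶ pt y, Tree r y p ∧
        (g ≫ Groupoid.inv p : DiagramGroup (fan r) (V0 r)) ∈
          Subgroup.closure (Set.range (gens r)) := by
    apply hom_induction
    · refine ⟨𝟙 _, tree_mk r 0 (by omega), ?_⟩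
      have h1 : (𝟙 _ ≫ Groupoid.inv (𝟙 _) : DiagramGroup (fan r) (V0 r)) = 1 := by
        rw [Groupoid.vertexGroup_one]
        simp
      rw [h1]
      exact Subgroup.one_mem _
    · rintro y z g e ⟨p, hT, hg⟩
      have hk := kind_of e (Or.inl (tree_len hT))
      obtain ⟨p', hT'⟩ : ∃ p', Tree r z p' := by
        cases hk with
        | k0 j hj => exact ⟨_, tree_mk r (j + 1) hj⟩
        | k1 j hj => exact ⟨_, tree_mk r (j + 2) hj⟩
      refine ⟨p', hT', ?_⟩
      have h1 := Subgroup.mul_mem _ hg (elem_mem r e hT hT')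
      rw [Groupoid.vertexGroup_mul] at h1
      simpa using h1
    · rintro y z g e ⟨p, hT, hg⟩
      have hk := kind_of e (Or.inr (tree_len hT))
      obtain ⟨p', hT'⟩ : ∃ p', Tree r z p' := by
        cases hk with
        | k0 j hj => exact ⟨_, tree_mk r 0 (by omega)⟩
        | k1 j hj => exact ⟨_, tree_mk r (j + 1) (by omega)⟩
      refine ⟨p', hT', ?_⟩
      have h1 := Subgroup.mul_mem _ hg (Subgroup.inv_mem _ (elem_mem r e hT' hT))
      rw [Groupoid.vertexGroup_mul, Groupoid.vertexGroup_inv] at h1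
      simpa using h1
  rw [eq_top_iff]
  rintro g -
  obtain ⟨p, hT, hg⟩ := key _ g
  have h1 := tree_V hT
  have h2 : (g ≫ Groupoid.inv p : DiagramGroup (fan r) (V0 r)) = g := by
    rw [h1]
    change g ≫ Groupoid.inv (𝟙 _) = g
    simp
  rw [h2] at hg
  exact hg

theorem cnt_pth (r c i : ℕ) (hc : c < r + 2) : cnt ([i + 1], [i + 2]) (pth r c hc) = 1 := by
  cases c with
  | zero => exact cnt_id _ _
  | succ j =>
    change cnt ([i + 1], [i + 2]) (ed (e0 r j hc)) = 1
    rw [cnt_ed, if_neg]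
    intro h
    have h1 : (([0], [j + 1]) : List ℕ × List ℕ) = ([i + 1], [i + 2]) := h
    simp at h1

theorem cnt_tj (r j i : ℕ) (hj : j + 2 < r + 2) : cnt ([i + 1], [i + 2]) (tj r j hj) =
    if i = j then Multiplicative.ofAdd 1 else 1 := by
  unfold tj
  rw [cnt_comp, cnt_comp, cnt_inv, cnt_pth, cnt_pth, cnt_ed]
  have h1 : ((show Edge (fan r) (V r (j + 1) (by omega)) (V r (j + 2) hj) from e1 r j hj).r =
      ([i + 1], [i + 2])) ↔ i = j := by
    constructor
    · intro h
      have h1 : (([j + 1], [j + 2]) : List ℕ × List ℕ) = ([i + 1], [i + 2]) := h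
      simp at h1
      omega
    · rintro rfl
      rfl
  by_cases h : i = j
  · rw [if_pos (h1.2 h), if_pos h]
    simp
  · rw [if_neg (fun h2 => h (h1.1 h2)), if_neg h]
    simp

theorem rk_fan (r : ℕ) : rk (fan r) (V0 r) = r := by
  apply rank_eq r (gens r) (gens_gen r)
    (fun i => cntHom ([i.1 + 1], [i.1 + 2]) (V0 r))
  intro i j
  change cnt ([i.1 + 1], [i.1 + 2]) (tj r j.1 (by omega)) = _
  rw [cnt_tj]
  by_cases h : i = j
  · rw [if_pos h, if_pos (by rw [h])]
  · rw [if_neg h, if_neg (fun h2 => h (Fin.ext h2))]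

theorem t : Pool.Agent.Y50.RD.S_rk := by
  intro r
  refine ⟨fan r, V r 0 (by omega), proper_fan r, ?_⟩
  unfold abRank
  rw [rk_fan, if_pos (Cardinal.natCast_lt_aleph0), Cardinal.toNat_natCast]

end Pool.Agent.Y10.RD
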